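import Mathlib

/-!
# A nonlinearity which is exponential for `u ≤ - log 2`
-/

set_option autoImplicit false

open MeasureTheory Filter Topology Set Real

namespace Pool.Agent.R894.Liou

noncomputable section

/-- Gluing two functions with derivatives. -/
lemma hasDerivAt_glue {f₁ f₂ d₁ d₂ : ℝ → ℝ} {a : ℝ} (h₁ : ∀ x, x ≤ a → HasDerivAt f₁ (d₁ x) x)
    (h₂ : ∀ x, a ≤ x → HasDerivAt f₂ (d₂ x) x) (hf : f₁ a = f₂ a) (hd : d₁ a = d₂ a) (x : ℝ) :
    HasDerivAt (fun y => if y ≤ a then f₁ y else f₂ y) (if x ≤ a then d₁ x else d₂ x) x := by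
  rcases lt_trichotomy x a with h | h | h
  · rw [if_pos h.le]
    refine (h₁ x h.le).congr_of_eventuallyEq ?_
    filter_upwards [Iio_mem_nhds h] with y hy
    rw [if_pos (le_of_lt hy)]
  · subst h
    rw [if_pos le_rfl]
    have e1 : HasDerivWithinAt (fun y => if y ≤ x then f₁ y else f₂ y) (d₁ x) (Iic x) x := by
      refine (h₁ x le_rfl).hasDerivWithinAt.congr (fun y hy => if_pos hy) (if_pos le_rfl)
    have e2 : HasDerivWithinAt (fun y => if y ≤ x then f₁ y else f₂ y) (d₁ x) (Ici x) x := by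
      rw [hd]
      refine (h₂ x le_rfl).hasDerivWithinAt.congr (fun y hy => ?_) (by rw [if_pos le_rfl, hf])
      rcases eq_or_lt_of_le (show x ≤ y from hy) with h | h
      · subst h
        rw [if_pos le_rfl, hf]
      · rw [if_neg (not_le.mpr h)]
    have := e1.union e2
    rw [Iic_union_Ici] at this
    exact this.hasDerivAt univ_mem
  · rw [if_neg (not_le.mpr h)]
    refine (h₂ x h.le).congr_of_eventuallyEq ?_
    filter_upwards [Ioi_mem_nhds h] with y hy
    rw [if_neg (not_le.mpr hy)]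

/-- The nonlinearity `q`: `q s = s` for `s ≤ 1/2`, `(4 s - 1) (1 - s)` for `1/2 ≤ s ≤ 1`, and
`3 (1 / s - 1)` for `s ≥ 1`. -/
def qq (s : ℝ) : ℝ := if s ≤ 1 / 2 then s else if s ≤ 1 then (4 * s - 1) * (1 - s) else 3 * (1 / s - 1)

/-- `g u = q (exp u)` -/
def gg (u : ℝ) : ℝ := qq (exp u)

/-- the derivative of `gg` -/
def gd (u : ℝ) : ℝ :=
  if u ≤ -log 2 then exp u else if u ≤ 0 then 5 * exp u - 8 * exp u ^ 2 else -(3 * exp (-u))

lemma exp_le_half (u : ℝ) : exp u ≤ 1 / 2 ↔ u ≤ -log 2 := by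
  have h : (1 / 2 : ℝ) = exp (-log 2) := by rw [exp_neg, exp_log (by norm_num)]; norm_num
  rw [h, exp_le_exp]

lemma exp_neg_log2 : exp (-log 2) = 1 / 2 := by
  rw [exp_neg, exp_log (by norm_num)]; norm_num

lemma gg_eq : gg = fun u => if u ≤ -log 2 then exp u else
    (if u ≤ 0 then (4 * exp u - 1) * (1 - exp u) else 3 * (exp (-u) - 1)) := by
  funext u
  unfold gg qq
  simp only [exp_le_half, exp_le_one_iff]
  rw [exp_neg]
  simp only [one_div]

lemma log2_pos : 0 < log 2 := log_pos (by norm_num)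

lemma gg_hasDerivAt (u : ℝ) : HasDerivAt gg (gd u) u := by
  rw [gg_eq]
  unfold gd
  refine hasDerivAt_glue (f₁ := exp) (d₁ := exp)
    (f₂ := fun u => (if u ≤ 0 then (4 * exp u - 1) * (1 - exp u) else 3 * (exp (-u) - 1)))
    (d₂ := fun u => if u ≤ 0 then 5 * exp u - 8 * exp u ^ 2 else -(3 * exp (-u)))
    (fun x _ => Real.hasDerivAt_exp x) (fun x _ => ?_) ?_ ?_ u
  · refine hasDerivAt_glue (f₁ := fun u => (4 * exp u - 1) * (1 - exp u))
      (d₁ := fun u => 5 * exp u - 8 * exp u ^ 2) (f₂ := fun u => 3 * (exp (-u) - 1))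
      (d₂ := fun u => -(3 * exp (-u))) (fun y _ => ?_) (fun y _ => ?_) ?_ ?_ x
    · have h1 : HasDerivAt (fun u => 4 * exp u - 1) (4 * exp y) y :=
        ((Real.hasDerivAt_exp y).const_mul 4).sub_const 1
      have h2 : HasDerivAt (fun u => 1 - exp u) (-exp y) y := (Real.hasDerivAt_exp y).const_sub 1
      refine (h1.mul h2).congr_deriv ?_
      ring
    · have h1 : HasDerivAt (fun u : ℝ => exp (-u)) (exp (-y) * (-1)) y :=
        (Real.hasDerivAt_exp (-y)).comp y (hasDerivAt_neg y)
      refine ((h1.sub_const 1).const_mul 3).congr_deriv ?_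
      ring
    · simp
    · norm_num
  · have h0 : -log 2 ≤ 0 := by linarith [log2_pos]
    simp only [h0, if_true, exp_neg_log2]
    norm_num
  · have h0 : -log 2 ≤ 0 := by linarith [log2_pos]
    simp only [h0, if_true, exp_neg_log2]
    norm_num

lemma deriv_gg : deriv gg = gd := funext fun u => (gg_hasDerivAt u).deriv

lemma continuous_gd : Continuous gd := by
  unfold gd
  refine Continuous.if_le continuous_exp (Continuous.if_le (by fun_prop) (by fun_prop)
    continuous_id continuous_const ?_) continuous_id continuous_const ?_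
  · intro x hx
    have hx' : x = 0 := hx
    subst hx'
    norm_num
  · intro x hx
    have hx' : x = -log 2 := hx
    subst hx'
    have h0 : -log 2 ≤ 0 := by linarith [log2_pos]
    simp only [h0, if_true, exp_neg_log2]
    norm_num

lemma contDiff_gg : ContDiff ℝ 1 gg := by
  rw [contDiff_one_iff_deriv]
  exact ⟨fun u => (gg_hasDerivAt u).differentiableAt, by rw [deriv_gg]; exact continuous_gd⟩

lemma gg_zero : gg 0 = 0 := by
  unfold gg qq
  norm_num

lemma gg_of_le {u : ℝ} (h : u ≤ -log 2) : gg u = exp u := by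
  rw [gg_eq]; simp [h]

lemma gg_pos {u : ℝ} (h : u < 0) : 0 < gg u := by
  rw [gg_eq]
  by_cases h1 : u ≤ -log 2
  · simp only [h1, if_true]; exact exp_pos u
  · simp only [h1, if_false, h.le, if_true]
    have h2 : 1 / 2 < exp u := by
      rw [← not_le, exp_le_half]; exact h1
    have h3 : exp u < 1 := Real.exp_lt_one_iff.mpr h
    exact mul_pos (by linarith) (by linarith)

lemma gg_le_exp {u : ℝ} (h : u ≤ 0) : gg u ≤ exp u := by
  rw [gg_eq]
  by_cases h1 : u ≤ -log 2
  · simp [h1]
  · simp only [h1, if_false, h, if_true]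
    nlinarith [sq_nonneg (2 * exp u - 1)]

lemma gg_nonneg {u : ℝ} (h : u ≤ 0) : 0 ≤ gg u := by
  rcases eq_or_lt_of_le h with h | h
  · rw [h, gg_zero]
  · exact (gg_pos h).le

lemma gd_le_gg {u : ℝ} (h : u ≤ 0) : gd u ≤ gg u := by
  rw [gg_eq]
  unfold gd
  by_cases h1 : u ≤ -log 2
  · simp [h1]
  · simp only [h1, if_false, h, if_true]
    have h2 : 1 / 2 < exp u := by
      rw [← not_le, exp_le_half]; exact h1
    nlinarith [sq_nonneg (exp u)]

lemma bounded : ∃ C, ∀ u, |gg u| + |deriv gg u| ≤ C := by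
  refine ⟨20, fun u => ?_⟩
  rw [deriv_gg, gg_eq]
  unfold gd
  by_cases h1 : u ≤ -log 2
  · simp only [h1, if_true]
    have h2 := (exp_le_half u).mpr h1
    have h3 := exp_pos u
    rw [abs_of_pos h3]
    linarith
  · by_cases h4 : u ≤ 0
    · simp only [h1, if_false, h4, if_true]
      have h3 := exp_pos u
      have h5 : exp u ≤ 1 := exp_le_one_iff.mpr h4
      have a1 : |(4 * exp u - 1) * (1 - exp u)| ≤ 4 := by
        rw [abs_le]; constructor <;> nlinarith
      have a2 : |5 * exp u - 8 * exp u ^ 2| ≤ 13 := by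
        rw [abs_le]; constructor <;> nlinarith
      linarith
    · simp only [h1, if_false, h4]
      have h3 := exp_pos (-u)
      have h5 : exp (-u) ≤ 1 := exp_le_one_iff.mpr (by linarith)
      have a1 : |3 * (exp (-u) - 1)| ≤ 3 := by
        rw [abs_le]; constructor <;> nlinarith
      have a2 : |-(3 * exp (-u))| ≤ 3 := by
        rw [abs_le]; constructor <;> nlinarith
      linarith

lemma integrableOn_gg (u : ℝ) : IntegrableOn gg (Iic u) := by
  have h1 : IntegrableOn gg (Iic (-log 2)) :=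
    (integrableOn_exp_Iic (-log 2)).congr_fun (fun x hx => (gg_of_le hx).symm) measurableSet_Iic
  have h2 : IntegrableOn gg (Icc (-log 2) u) := contDiff_gg.continuous.integrableOn_Icc
  refine (h1.union h2).mono_set ?_
  intro x hx
  rcases le_total x (-log 2) with h | h
  · exact Or.inl h
  · exact Or.inr ⟨h, hx⟩

lemma integrableOn_gd (u : ℝ) : IntegrableOn gd (Iic u) := by
  have h1 : IntegrableOn gd (Iic (-log 2)) :=
    (integrableOn_exp_Iic (-log 2)).congr_fun (fun x hx => by
      have hx' : x ≤ -log 2 := hx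
      simp [gd, hx']) measurableSet_Iic
  have h2 : IntegrableOn gd (Icc (-log 2) u) := continuous_gd.integrableOn_Icc
  refine (h1.union h2).mono_set ?_
  intro x hx
  rcases le_total x (-log 2) with h | h
  · exact Or.inl h
  · exact Or.inr ⟨h, hx⟩

lemma integral_gg_of_le {u : ℝ} (h : u ≤ -log 2) : ∫ s in Iic u, gg s = exp u := by
  rw [← integral_exp_Iic u]
  refine setIntegral_congr_fun measurableSet_Iic fun x hx => ?_
  exact gg_of_le (le_trans hx h)

lemma tendsto_gg : Tendsto gg atBot (𝓝 0) := by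
  refine Real.tendsto_exp_atBot.congr' ?_
  filter_upwards [eventually_le_atBot (-log 2)] with u hu
  exact (gg_of_le hu).symm

lemma le_integral_gg {u : ℝ} (h : u ≤ 0) : gg u ≤ ∫ s in Iic u, gg s := by
  have h1 : ∫ s in Iic u, gd s = gg u - 0 :=
    integral_Iic_of_hasDerivAt_of_tendsto' (fun x _ => gg_hasDerivAt x) (integrableOn_gd u)
      tendsto_gg
  have h2 : ∫ s in Iic u, gd s ≤ ∫ s in Iic u, gg s :=
    setIntegral_mono_on (integrableOn_gd u) (integrableOn_gg u) measurableSet_Iic
      fun x hx => gd_le_gg (le_trans hx h)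
  linarith

lemma gd_nonpos {u : ℝ} (h : u ∈ Icc (-(log (8 / 5))) 0) : gd u ≤ 0 := by
  have h1 : ¬ u ≤ -log 2 := by
    have := log_lt_log (by norm_num : (0 : ℝ) < 8 / 5) (by norm_num : (8 / 5 : ℝ) < 2)
    linarith [h.1]
  unfold gd
  simp only [h1, if_false, h.2, if_true]
  have h2 : 5 / 8 ≤ exp u := by
    have : (5 / 8 : ℝ) = exp (-(log (8 / 5))) := by
      rw [exp_neg, exp_log (by norm_num)]; norm_num
    rw [this]
    exact exp_le_exp.mpr h.1
  nlinarith [exp_pos u]

end

end Pool.Agent.R894.Liou
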