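import Mathlib
import Pool.Agent.R894.LiouG

/-!
# The hypotheses (H1)-(H8) and their verification
-/

set_option autoImplicit false

open MeasureTheory Filter Topology Set Real

namespace Pool.Agent.R894.Liou

noncomputable section

/-- `f t = e^{2 t} p (e^t)`. -/
def fOf (p : ℝ → ℝ) (t : ℝ) : ℝ := exp (2 * t) * p (exp t)

/-- `g u = q (e^u)`. -/
def gOf (q : ℝ → ℝ) (u : ℝ) : ℝ := q (exp u)

/-- `∫_0^∞ f t * g (- M t) dt`, as an extended nonnegative number. -/
def tail (f g : ℝ → ℝ) (M : ℝ) : ENNReal :=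
  ∫⁻ t in Ioi (0 : ℝ), ENNReal.ofReal (f t * g (-(M * t)))

/-- `M₀ = inf {M > 0 : ∫_0^∞ f t * g (- M t) dt < ∞}`. -/
def M₀ (f g : ℝ → ℝ) : ℝ := sInf {M : ℝ | 0 < M ∧ tail f g M < ⊤}

/-- `G₀ u = ∫_{-∞}^u g`. -/
def G₀ (g : ℝ → ℝ) (u : ℝ) : ℝ := ∫ s in Iic u, g s

/-- The hypotheses (H1)-(H8) on `f` and `g`. -/
structure Hypotheses (f g : ℝ → ℝ) : Prop where
  /-- (H1) -/
  h1 : ContDiff ℝ 1 f ∧ ContDiff ℝ 1 g ∧ IntegrableOn (fun t => |t * f t|) (Iio 0) ∧
    ∃ C, ∀ u, |g u| + |deriv g u| ≤ C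
  /-- (H2) -/
  h2 : (∀ t, 0 < f t) ∧ Tendsto f atTop atTop ∧ g 0 = 0 ∧ ∀ u < 0, 0 < g u
  /-- (H3) -/
  h3 : ∀ t, 0 ≤ deriv f t
  /-- (H4) -/
  h4 : ∃ M > 0, (∀ u < -M, 0 < deriv g u) ∧ tail f g M < ⊤
  /-- (H5) -/
  h5 : tail f g (M₀ f g) = ⊤ ∧ ∀ c > 0, ∃ ε > 0, ∀ t > 0, ε ≤ f (t - c) / f t
  /-- (H6) and (H7) -/
  h67 : (∀ u, IntegrableOn g (Iic u)) ∧ ∃ f₁ g₁ : ℝ,
    Tendsto (fun t => deriv f t / f t) atTop (𝓝 f₁) ∧
    Tendsto (fun u => G₀ g u / g u) atBot (𝓝 g₁) ∧
    (∀ t, f₁ ≤ deriv f t / f t) ∧ ∀ u < 0, g₁ ≤ G₀ g u / g u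
  /-- (H8) -/
  h8 : ∃ δ > 0, ∀ u ∈ Icc (-δ) 0, deriv g u ≤ 0

/-- `f t = c e^{k t}` -/
def fe (c k t : ℝ) : ℝ := c * exp (k * t)

lemma fOf_eq {c b : ℝ} : fOf (fun r => c * r ^ b) = fe c (2 + b) := by
  funext t
  unfold fOf fe
  simp only
  rw [← Real.exp_mul, mul_left_comm, ← Real.exp_add]
  congr 2
  ring

lemma fe_hasDerivAt (c k t : ℝ) : HasDerivAt (fe c k) (k * fe c k t) t := by
  unfold fe
  have h1 : HasDerivAt (fun t : ℝ => k * t) k t := by
    simpa using (hasDerivAt_id t).const_mul k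
  have := (h1.exp).const_mul c
  refine this.congr_deriv ?_
  ring

lemma deriv_fe (c k : ℝ) : deriv (fe c k) = fun t => k * fe c k t :=
  funext fun t => (fe_hasDerivAt c k t).deriv

lemma fe_pos {c : ℝ} (hc : 0 < c) (k t : ℝ) : 0 < fe c k t := mul_pos hc (exp_pos _)

lemma integrable_h1 {c k : ℝ} (hk : 0 < k) : IntegrableOn (fun t => |t * fe c k t|) (Iio 0) := by
  have h1 : IntegrableOn (fun t : ℝ => t * exp (-k * t)) (Ioi 0) := by
    have := integrableOn_rpow_mul_exp_neg_mul_rpow (p := 1) (s := 1) (b := k) (by norm_num)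
      one_pos hk
    refine this.congr_fun (fun x hx => ?_) measurableSet_Ioi
    simp
  have h2 : IntegrableOn (fun t : ℝ => (-t) * exp (-k * (-t))) (Iio 0) := by
    have h3 : IntegrableOn (fun t : ℝ => t * exp (-k * t)) (Ioi (-(0 : ℝ))) := by simpa using h1
    exact h3.comp_neg_Iio
  have h4 : IntegrableOn (fun t : ℝ => |-c * (-t * exp (-k * -t))|) (Iio 0) :=
    (h2.const_mul (-c)).abs
  refine h4.congr_fun (fun t _ => ?_) measurableSet_Iio
  simp only [fe]
  congr 1
  ring_nf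

lemma tail_lt {c k M : ℝ} (hc : 0 < c) (hk : 0 < k) (hM : k < M) : tail (fe c k) gg M < ⊤ := by
  unfold tail
  have h1 : IntegrableOn (fun t : ℝ => c * exp (-(M - k) * t)) (Ioi 0) :=
    (integrableOn_exp_mul_Ioi (by linarith) 0).const_mul c
  have h2 : IntegrableOn (fun t : ℝ => fe c k t * gg (-(M * t))) (Ioi 0) := by
    refine h1.mono' ?_ ?_
    · have : Continuous fun t : ℝ => fe c k t * gg (-(M * t)) := by
        have e1 : Continuous (fe c k) := by unfold fe; fun_prop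
        exact e1.mul (contDiff_gg.continuous.comp (by fun_prop))
      exact this.aestronglyMeasurable
    · refine (ae_restrict_iff' measurableSet_Ioi).mpr (Eventually.of_forall fun t ht => ?_)
      have ht' : 0 < t := ht
      have h3 : -(M * t) ≤ 0 := by nlinarith
      rw [Real.norm_eq_abs, abs_of_nonneg (mul_nonneg (fe_pos hc k t).le (gg_nonneg h3))]
      calc fe c k t * gg (-(M * t)) ≤ fe c k t * exp (-(M * t)) :=
            mul_le_mul_of_nonneg_left (gg_le_exp h3) (fe_pos hc k t).le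
        _ = c * exp (-(M - k) * t) := by
            unfold fe
            rw [mul_assoc, ← Real.exp_add]
            congr 2
            ring
  have h5 := h2.2
  rw [hasFiniteIntegral_iff_ofReal] at h5
  · exact h5
  · refine (ae_restrict_iff' measurableSet_Ioi).mpr (Eventually.of_forall fun t ht => ?_)
    have ht' : 0 < t := ht
    exact mul_nonneg (fe_pos hc k t).le (gg_nonneg (by nlinarith))

lemma tail_top {c k M : ℝ} (hc : 0 < c) (hM0 : 0 < M) (hM : M ≤ k) :
    tail (fe c k) gg M = ⊤ := by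
  unfold tail
  rw [eq_top_iff]
  have h0 : 0 ≤ log 2 / M := div_nonneg log2_pos.le hM0.le
  calc (⊤ : ENNReal) = ∫⁻ _ in Ioi (log 2 / M), ENNReal.ofReal c := by
        rw [setLIntegral_const, Real.volume_Ioi, ENNReal.mul_top]
        simpa using hc
    _ ≤ ∫⁻ t in Ioi (log 2 / M), ENNReal.ofReal (fe c k t * gg (-(M * t))) := by
        refine setLIntegral_mono' measurableSet_Ioi fun t ht => ?_
        have ht' : log 2 / M < t := ht
        rw [div_lt_iff₀ hM0] at ht'
        apply ENNReal.ofReal_le_ofReal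
        rw [gg_of_le (by linarith)]
        unfold fe
        rw [mul_assoc, ← Real.exp_add]
        have ht0 : 0 < t := by
          have := log2_pos
          by_contra hcon
          nlinarith
        have : 1 ≤ exp (k * t + -(M * t)) := by
          rw [Real.one_le_exp_iff]
          nlinarith
        nlinarith
    _ ≤ ∫⁻ t in Ioi (0 : ℝ), ENNReal.ofReal (fe c k t * gg (-(M * t))) :=
        lintegral_mono_set (Ioi_subset_Ioi h0)

lemma M₀_eq {c k : ℝ} (hc : 0 < c) (hk : 0 < k) : M₀ (fe c k) gg = k := by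
  have : {M : ℝ | 0 < M ∧ tail (fe c k) gg M < ⊤} = Ioi k := by
    ext M
    constructor
    · rintro ⟨h1, h2⟩
      by_contra h3
      rw [tail_top hc h1 (not_lt.mp h3)] at h2
      exact lt_irrefl _ h2
    · intro h
      have h' : k < M := h
      exact ⟨hk.trans h', tail_lt hc hk h'⟩
  unfold M₀
  rw [this, csInf_Ioi]

theorem hypotheses {c k : ℝ} (hc : 0 < c) (hk : 2 ≤ k) : Hypotheses (fe c k) gg := by
  have hk0 : 0 < k := by linarith
  refine ⟨⟨?_, contDiff_gg, integrable_h1 hk0, bounded⟩, ⟨fe_pos hc k, ?_, gg_zero,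
    fun u hu => gg_pos hu⟩, ?_, ⟨k + 1, by linarith, ?_, tail_lt hc hk0 (by linarith)⟩,
    ⟨?_, ?_⟩, ⟨integrableOn_gg, k, 1, ?_, ?_, ?_, ?_⟩, ⟨log (8 / 5), log_pos (by norm_num), ?_⟩⟩
  · unfold fe
    fun_prop
  · unfold fe
    refine Tendsto.const_mul_atTop hc (Real.tendsto_exp_atTop.comp ?_)
    exact tendsto_id.const_mul_atTop hk0
  · intro t
    rw [deriv_fe]
    exact (mul_pos hk0 (fe_pos hc k t)).le
  · intro u hu
    rw [deriv_gg]
    have h1 : log 2 < 1 := by
      have := Real.log_two_lt_d9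
      linarith
    have h2 : u ≤ -log 2 := by linarith
    simp only [gd, h2, if_true]
    exact exp_pos u
  · rw [M₀_eq hc hk0]
    exact tail_top hc hk0 le_rfl
  · intro s hs
    refine ⟨exp (-(k * s)), exp_pos _, fun t _ => ?_⟩
    rw [le_div_iff₀ (fe_pos hc k t)]
    unfold fe
    rw [mul_left_comm, ← Real.exp_add]
    refine le_of_eq ?_
    congr 2
    ring
  · have : (fun t => deriv (fe c k) t / fe c k t) = fun _ => k := by
      funext t
      rw [deriv_fe]
      field_simp [(fe_pos hc k t).ne']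
    rw [this]
    exact tendsto_const_nhds
  · refine tendsto_const_nhds.congr' ?_
    filter_upwards [eventually_le_atBot (-log 2)] with u hu
    unfold G₀
    rw [integral_gg_of_le hu, gg_of_le hu, div_self (exp_pos u).ne']
  · intro t
    rw [deriv_fe]
    rw [mul_div_assoc, div_self (fe_pos hc k t).ne', mul_one]
  · intro u hu
    rw [le_div_iff₀ (gg_pos hu), one_mul]
    exact le_integral_gg hu.le
  · intro u hu
    rw [deriv_gg]
    exact gd_nonpos hu

end

end Pool.Agent.R894.Liou
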