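import Mathlib
import Pool.Agent.R894.LiouF
import Pool.Agent.H314.CS.Dist
import Pool.Agent.H314.CS.Holo

/-!
# The explicit nonradial solutions
-/

set_option autoImplicit false

open MeasureTheory Filter Topology Set Real
open scoped Laplacian InnerProductSpace

namespace Pool.Agent.R894.Liou

noncomputable section

open Pool.Agent.H314.Dir Pool.Agent.H314.CS

/-- The holomorphic function `z^(m+1) + 1`. -/
def hol (m : ℕ) (z : ℂ) : ℂ := z ^ (m + 1) + 1

/-- The regular part of the solution. -/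
def WW (m : ℕ) (x : Eu 2) : ℝ := -log 4 - 2 * log (1 + Complex.normSq (hol m (cz x)))

/-- The solution. -/
def uu (N : ℝ) (m : ℕ) (x : Eu 2) : ℝ := 2 * N * log ‖x‖ + WW m x

lemma lap_eq (f : Eu 2 → ℝ) (x : Eu 2) : Δ f x = lap f x := by
  rw [InnerProductSpace.laplacian_eq_iteratedFDeriv_orthonormalBasis f
    (EuclideanSpace.basisFun (Fin 2) ℝ)]
  unfold lap
  refine Finset.sum_congr rfl fun i _ => ?_
  congr 1
  funext j
  fin_cases j <;> simp

lemma normSq_cz (x : Eu 2) : Complex.normSq (cz x) = ‖x‖ ^ 2 := by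
  rw [EuclideanSpace.real_norm_sq_eq, Fin.sum_univ_two, Complex.normSq_apply, cz]
  ring

lemma contDiff_cz {n : WithTop ℕ∞} : ContDiff ℝ n (fun x : Eu 2 => cz x) := by
  have h0 : ∀ i : Fin 2, ContDiff ℝ n (fun x : Eu 2 => x i) := fun i =>
    (EuclideanSpace.proj (𝕜 := ℝ) i : Eu 2 →L[ℝ] ℝ).contDiff
  have e : (fun x : Eu 2 => cz x) =
      fun x : Eu 2 => Complex.ofRealCLM (x 0) + Complex.ofRealCLM (x 1) * Complex.I := by
    funext x
    apply Complex.ext <;> simp [cz]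
  rw [e]
  exact (Complex.ofRealCLM.contDiff.comp (h0 0)).add
    ((Complex.ofRealCLM.contDiff.comp (h0 1)).mul contDiff_const)

lemma contDiff_ns (m : ℕ) {n : WithTop ℕ∞} :
    ContDiff ℝ n (fun x : Eu 2 => Complex.normSq (hol m (cz x))) := by
  have h1 : ContDiff ℝ n (fun x : Eu 2 => hol m (cz x)) :=
    (contDiff_cz.pow (m + 1)).add contDiff_const
  have hre : ContDiff ℝ n (fun x : Eu 2 => (hol m (cz x)).re) := Complex.reCLM.contDiff.comp h1
  have him : ContDiff ℝ n (fun x : Eu 2 => (hol m (cz x)).im) := Complex.imCLM.contDiff.comp h1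
  have e : (fun x : Eu 2 => Complex.normSq (hol m (cz x))) =
      fun x : Eu 2 => (hol m (cz x)).re * (hol m (cz x)).re +
        (hol m (cz x)).im * (hol m (cz x)).im := by
    funext x
    rw [Complex.normSq_apply]
  rw [e]
  exact (hre.mul hre).add (him.mul him)

lemma one_add_pos (m : ℕ) (x : Eu 2) : 0 < 1 + Complex.normSq (hol m (cz x)) := by
  have := Complex.normSq_nonneg (hol m (cz x))
  linarith

lemma contDiff_WW (m : ℕ) {n : WithTop ℕ∞} : ContDiff ℝ n (WW m) := by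
  unfold WW
  exact contDiff_const.sub (contDiff_const.mul ((contDiff_const.add (contDiff_ns m)).log
    fun x => (one_add_pos m x).ne'))

/-- The Laplacian of the regular part. -/
lemma laplacian_WW (m : ℕ) (x : Eu 2) :
    Δ (WW m) x = -(8 * ((m : ℝ) + 1) ^ 2 * (‖x‖ ^ 2) ^ m) /
      (1 + Complex.normSq (hol m (cz x))) ^ 2 := by
  have hF : ∀ z : ℂ, HasDerivAt (hol m) ((fun z : ℂ => ((m : ℂ) + 1) * z ^ m) z) z := by
    intro z
    have h1 : HasDerivAt (fun z : ℂ => z ^ (m + 1) + 1) (((m + 1 : ℕ) : ℂ) * z ^ (m + 1 - 1)) z :=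
      (hasDerivAt_pow (m + 1) z).add_const (1 : ℂ)
    refine h1.congr_deriv ?_
    push_cast
    simp
  have hF' : ∀ z : ℂ, HasDerivAt (fun z : ℂ => ((m : ℂ) + 1) * z ^ m)
      ((fun z : ℂ => ((m : ℂ) + 1) * ((m : ℂ) * z ^ (m - 1))) z) z := by
    intro z
    exact (hasDerivAt_pow m z).const_mul ((m : ℂ) + 1)
  have hC : ContDiffAt ℝ 2 (fun y : Eu 2 =>
      (fun r : ℝ => -log 4 - 2 * log (1 + r)) (Complex.normSq (hol m (cz y)))) x :=
    (contDiff_WW m).contDiffAt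
  have hpos : 0 < 1 + Complex.normSq (hol m (cz x)) := one_add_pos m x
  have hd : ∀ r : ℝ, 0 < 1 + r → HasDerivAt (fun r : ℝ => -log 4 - 2 * log (1 + r))
      ((fun r : ℝ => -(2 * (1 + r)⁻¹)) r) r := by
    intro r hr
    have h1 : HasDerivAt (fun r : ℝ => 1 + r) 1 r := (hasDerivAt_id r).const_add 1
    have h2 := (h1.log hr.ne').const_mul 2
    refine (h2.const_sub (-log 4)).congr_deriv ?_
    simp only [one_div]
  have hd' : HasDerivAt (fun r : ℝ => -(2 * (1 + r)⁻¹))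
      ((fun r : ℝ => 2 * ((1 + r) ^ 2)⁻¹) (Complex.normSq (hol m (cz x))))
      (Complex.normSq (hol m (cz x))) := by
    have h1 : HasDerivAt (fun r : ℝ => 1 + r) 1 (Complex.normSq (hol m (cz x))) :=
      (hasDerivAt_id _).const_add 1
    have h2 := ((h1.inv hpos.ne').const_mul 2).neg
    refine h2.congr_deriv ?_
    simp only [neg_div, one_div]
    ring
  have hev : ∀ᶠ r in 𝓝 (Complex.normSq (hol m (cz x))),
      HasDerivAt (fun r : ℝ => -log 4 - 2 * log (1 + r)) ((fun r : ℝ => -(2 * (1 + r)⁻¹)) r) r := by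
    have h1 : Continuous fun r : ℝ => 1 + r := by fun_prop
    filter_upwards [h1.continuousAt.eventually (lt_mem_nhds hpos)] with r hr
    exact hd r hr
  have h := lap_holo hF hF' (g'' := fun r : ℝ => 2 * ((1 + r) ^ 2)⁻¹) x hev hd' hC
  have e1 : WW m = fun y : Eu 2 =>
      (fun r : ℝ => -log 4 - 2 * log (1 + r)) (Complex.normSq (hol m (cz y))) := rfl
  rw [lap_eq, e1, h]
  rw [map_mul, map_pow, normSq_cz]
  have e2 : Complex.normSq ((m : ℂ) + 1) = ((m : ℝ) + 1) ^ 2 := by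
    rw [Complex.normSq_apply]
    simp
    ring
  rw [e2]
  field_simp
  ring

lemma exp_uu {N : ℝ} {m : ℕ} {x : Eu 2} (hx : x ≠ 0) :
    exp (uu N m x) = (1 / 4) * ‖x‖ ^ (2 * N) / (1 + Complex.normSq (hol m (cz x))) ^ 2 := by
  have h0 : 0 < ‖x‖ := norm_pos_iff.mpr hx
  unfold uu WW
  rw [exp_add, sub_eq_add_neg, exp_add, exp_neg, exp_log (by norm_num), Real.rpow_def_of_pos h0]
  have e1 : exp (-(2 * log (1 + Complex.normSq (hol m (cz x))))) =
      ((1 + Complex.normSq (hol m (cz x))) ^ 2)⁻¹ := by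
    rw [exp_neg, two_mul, exp_add, exp_log (one_add_pos m x), sq]
  rw [e1, mul_comm (log ‖x‖)]
  field_simp

lemma exp_uu_le {N : ℝ} (hN : 0 ≤ N) {m : ℕ} (hm : N ≤ m) {x : Eu 2} (hx : x ≠ 0) :
    exp (uu N m x) ≤ 1 / 2 := by
  rw [exp_uu hx]
  have h0 : 0 < ‖x‖ := norm_pos_iff.mpr hx
  have hp := one_add_pos m x
  rw [div_le_iff₀ (by positivity)]
  -- `w = z^(m+1)`
  set w : ℂ := (cz x) ^ (m + 1) with hw
  have hnw : Complex.normSq w = (‖x‖ ^ 2) ^ (m + 1) := by rw [hw, map_pow, normSq_cz]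
  have h1 : Complex.normSq w ≤ 2 * Complex.normSq (hol m (cz x)) + 2 := by
    have : hol m (cz x) = w + 1 := rfl
    rw [this, Complex.normSq_apply, Complex.normSq_apply]
    simp only [Complex.add_re, Complex.one_re, Complex.add_im, Complex.one_im]
    nlinarith [sq_nonneg (w.re + 2), sq_nonneg w.im]
  have h2 : ‖x‖ ^ (2 * N) ≤ max 1 (Complex.normSq w) := by
    rcases le_total ‖x‖ 1 with h | h
    · exact le_trans (Real.rpow_le_one h0.le h (by linarith)) (le_max_left _ _)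
    · refine le_trans ?_ (le_max_right _ _)
      rw [hnw, ← pow_mul, ← Real.rpow_natCast]
      refine Real.rpow_le_rpow_of_exponent_le h ?_
      push_cast
      linarith
  have h3 : max 1 (Complex.normSq w) ≤ 2 * (1 + Complex.normSq (hol m (cz x))) := by
    refine max_le ?_ (by linarith)
    have := Complex.normSq_nonneg (hol m (cz x))
    linarith
  have h4 := Complex.normSq_nonneg (hol m (cz x))
  nlinarith

lemma uu_le {N : ℝ} (hN : 0 ≤ N) {m : ℕ} (hm : N ≤ m) {x : Eu 2} (hx : x ≠ 0) :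
    uu N m x ≤ -log 2 := by
  rw [← exp_le_half]
  exact exp_uu_le hN hm hx

/-- the coefficient `p` -/
def pp (N : ℝ) (m : ℕ) (r : ℝ) : ℝ := 32 * ((m : ℝ) + 1) ^ 2 * r ^ (2 * ((m : ℝ) - N))

lemma rhs_eq {N : ℝ} (hN : 0 ≤ N) {m : ℕ} (hm : N ≤ m) {x : Eu 2} (hx : x ≠ 0) :
    pp N m ‖x‖ * qq (exp (uu N m x)) = -(Δ (WW m) x) := by
  have h0 : 0 < ‖x‖ := norm_pos_iff.mpr hx
  have h1 : qq (exp (uu N m x)) = exp (uu N m x) := by
    unfold qq
    rw [if_pos (exp_uu_le hN hm hx)]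
  rw [h1, exp_uu hx, laplacian_WW]
  unfold pp
  have h2 : ‖x‖ ^ (2 * ((m : ℝ) - N)) * ‖x‖ ^ (2 * N) = (‖x‖ ^ 2) ^ m := by
    rw [← Real.rpow_add h0, ← pow_mul, ← Real.rpow_natCast]
    congr 1
    push_cast
    ring
  rw [← h2]
  ring

lemma ae_ne : ∀ᵐ x : Eu 2, x ≠ 0 := by
  rw [ae_iff]; simp

lemma continuous_lapW (m : ℕ) : Continuous (Δ (WW m)) :=
  LL.continuous_laplacian (contDiff_WW m)

lemma locInt_u (N : ℝ) (m : ℕ) : LocallyIntegrable (uu N m) := by
  have h1 : LocallyIntegrable (fun x : Eu 2 => 2 * N * log ‖x‖) := by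
    have := (locInt_log (0 : Eu 2)).smul (2 * N)
    refine this.congr (Eventually.of_forall fun x => ?_)
    simp
  exact h1.add (contDiff_WW m (n := 0)).continuous.locallyIntegrable

lemma smooth_u (N : ℝ) (m : ℕ) : ContDiffOn ℝ ((⊤ : ℕ∞) : WithTop ℕ∞) (uu N m) {0}ᶜ := by
  intro x hx
  have hx' : x ≠ 0 := hx
  refine ContDiffAt.contDiffWithinAt ?_
  refine (contDiffAt_const.mul ?_).add (contDiff_WW m).contDiffAt
  exact (contDiffAt_norm ℝ hx').log (norm_ne_zero_iff.mpr hx')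

lemma locInt_rhs {N : ℝ} (hN : 0 ≤ N) {m : ℕ} (hm : N ≤ m) :
    LocallyIntegrable (fun x : Eu 2 => pp N m ‖x‖ * qq (exp (uu N m x))) := by
  refine ((continuous_lapW m).neg.locallyIntegrable).congr ?_
  filter_upwards [ae_ne] with x hx
  exact (rhs_eq hN hm hx).symm

lemma distr {N : ℝ} (hN : 0 ≤ N) {m : ℕ} (hm : N ≤ m) {φ : Eu 2 → ℝ}
    (hφ : ContDiff ℝ 2 φ) (hc : HasCompactSupport φ) :
    (∫ x, uu N m x * Δ φ x) + ∫ x, pp N m ‖x‖ * qq (exp (uu N m x)) * φ x =
      4 * π * N * φ 0 := by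
  have h1 := dist_identity (N := 1) (fun _ => (0 : Eu 2)) (fun _ => 2 * N) (WW m) φ
    (contDiff_WW m) hφ hc
  simp only [Finset.univ_unique, Fin.default_eq_zero, Fin.isValue, sub_zero,
    Finset.sum_const, Finset.card_singleton, one_smul] at h1
  have h2 : ∫ x, pp N m ‖x‖ * qq (exp (uu N m x)) * φ x = -∫ x, Δ (WW m) x * φ x := by
    rw [← integral_neg]
    refine integral_congr_ae ?_
    filter_upwards [ae_ne] with x hx
    rw [rhs_eq hN hm hx]
    ring
  rw [h2]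
  unfold uu
  rw [h1]
  ring

end

end Pool.Agent.R894.Liou
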